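import Mathlib

/-!
# Project FS (MP_75608d_al), final step: (WRD), few pairs of words with many agreements
-/

set_option autoImplicit false

namespace Pool.Agent.Helper5.FS

open Finset

/-- product weights: more than `D` of the `N` coordinates have the property `E` -/
theorem wrd_gen {X : Type} [Fintype X] (w : X → ℝ) (hw0 : ∀ x, 0 ≤ w x) (hw1 : ∑ x, w x ≤ 1)
    (E : X → Prop) [DecidablePred E] (N D : ℕ) :
    ∑ A : Fin N → X, (∏ v, w (A v)) *
        (if D < (univ.filter fun v => E (A v)).card then 1 else 0) ≤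
      2 ^ N * (∑ x, w x * (if E x then 1 else 0)) ^ (D + 1) := by
  classical
  obtain ⟨p, hp⟩ : ∃ p : ℝ, p = ∑ x, w x * (if E x then 1 else 0) := ⟨_, rfl⟩
  have hp0 : 0 ≤ p := by
    rw [hp]
    refine sum_nonneg fun x _ => ?_
    split_ifs
    · simpa using hw0 x
    · simp
  rw [← hp]
  have h1 : ∀ A : Fin N → X, (∏ v, w (A v)) *
      (if D < (univ.filter fun v => E (A v)).card then (1 : ℝ) else 0) ≤
      ∑ T ∈ powersetCard (D + 1) (univ : Finset (Fin N)),
        ∏ v, (w (A v) * (if v ∈ T then (if E (A v) then (1 : ℝ) else 0) else 1)) := by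
    intro A
    have hterm : ∀ T ∈ powersetCard (D + 1) (univ : Finset (Fin N)),
        0 ≤ ∏ v, (w (A v) * (if v ∈ T then (if E (A v) then (1 : ℝ) else 0) else 1)) := by
      intro T _
      refine prod_nonneg fun v _ => mul_nonneg (hw0 _) ?_
      split_ifs <;> norm_num
    by_cases hD : D < (univ.filter fun v => E (A v)).card
    · rw [if_pos hD, mul_one]
      obtain ⟨T, hTs, hTc⟩ := exists_subset_card_eq (Nat.succ_le_of_lt hD)
      have hT : T ∈ powersetCard (D + 1) (univ : Finset (Fin N)) := by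
        rw [mem_powersetCard]
        exact ⟨subset_univ _, hTc⟩
      refine le_trans (le_of_eq ?_) (single_le_sum hterm hT)
      refine prod_congr rfl fun v _ => ?_
      by_cases hv : v ∈ T
      · have h2 := (mem_filter.1 (hTs hv)).2
        rw [if_pos hv, if_pos h2, mul_one]
      · rw [if_neg hv, mul_one]
    · rw [if_neg hD, mul_zero]
      exact sum_nonneg hterm
  refine (sum_le_sum fun A _ => h1 A).trans ?_
  rw [sum_comm]
  have h2 : ∀ T ∈ powersetCard (D + 1) (univ : Finset (Fin N)),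
      ∑ A : Fin N → X, ∏ v, (w (A v) * (if v ∈ T then (if E (A v) then (1 : ℝ) else 0) else 1)) ≤
        p ^ (D + 1) := by
    intro T hT
    have hTc : T.card = D + 1 := (mem_powersetCard.1 hT).2
    have h3 := prod_univ_sum (fun _ : Fin N => (univ : Finset X))
      (fun v x => w x * (if v ∈ T then (if E x then (1 : ℝ) else 0) else 1))
    rw [Fintype.piFinset_univ] at h3
    rw [← h3]
    have h4 : ∀ v : Fin N, ∑ x, w x * (if v ∈ T then (if E x then (1 : ℝ) else 0) else 1) ≤
        if v ∈ T then p else 1 := by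
      intro v
      by_cases hv : v ∈ T
      · simp only [if_pos hv]
        exact hp.ge
      · simp only [if_neg hv, mul_one]
        exact hw1
    refine (prod_le_prod (fun v _ => ?_) fun v _ => h4 v).trans ?_
    · refine sum_nonneg fun x _ => mul_nonneg (hw0 _) ?_
      split_ifs <;> norm_num
    · rw [prod_ite, prod_const_one, mul_one, prod_const]
      have : (univ.filter fun v : Fin N => v ∈ T) = T := by
        ext v
        simp
      rw [this, hTc]
  refine (sum_le_sum h2).trans ?_
  rw [sum_const, nsmul_eq_mul]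
  refine mul_le_mul_of_nonneg_right ?_ (pow_nonneg hp0 _)
  have h5 : (powersetCard (D + 1) (univ : Finset (Fin N))).card ≤ 2 ^ N := by
    have h6 : (powersetCard (D + 1) (univ : Finset (Fin N))) ⊆ (univ : Finset (Fin N)).powerset := by
      intro T hT
      rw [mem_powerset]
      exact (mem_powersetCard.1 hT).1
    have h7 := card_le_card h6
    rwa [card_powerset, card_univ, Fintype.card_fin] at h7
  exact_mod_cast h5

/-- product weights over pairs of sequences -/
theorem wrd_pair {X : Type} [Fintype X] (μ : X → ℝ) (h0 : ∀ p, 0 ≤ μ p) (h1 : ∑ p, μ p ≤ 1)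
    (E : X → X → Prop) [∀ a b, Decidable (E a b)] (N D : ℕ) :
    ∑ A : Fin N → X, ∑ B : Fin N → X, (∏ v, μ (A v)) * (∏ v, μ (B v)) *
        (if D < (univ.filter fun v => E (A v) (B v)).card then 1 else 0) ≤
      2 ^ N * (∑ a, ∑ b, μ a * μ b * (if E a b then 1 else 0)) ^ (D + 1) := by
  classical
  have hw1 : ∑ x : X × X, μ x.1 * μ x.2 ≤ 1 := by
    rw [Fintype.sum_prod_type]
    have : ∑ a, ∑ b, μ a * μ b = (∑ a, μ a) * ∑ b, μ b := by
      rw [sum_mul_sum]
    rw [this]
    have h2 : 0 ≤ ∑ a, μ a := sum_nonneg fun a _ => h0 a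
    nlinarith
  have h3 := wrd_gen (fun x : X × X => μ x.1 * μ x.2) (fun x => mul_nonneg (h0 _) (h0 _)) hw1
    (fun x => E x.1 x.2) N D
  have h4 : ∑ x : X × X, μ x.1 * μ x.2 * (if E x.1 x.2 then (1 : ℝ) else 0) =
      ∑ a, ∑ b, μ a * μ b * (if E a b then 1 else 0) := Fintype.sum_prod_type _
  rw [h4] at h3
  refine le_trans (le_of_eq ?_) h3
  have h5 : ∑ A : Fin N → X, ∑ B : Fin N → X, (∏ v, μ (A v)) * (∏ v, μ (B v)) *
        (if D < (univ.filter fun v => E (A v) (B v)).card then (1 : ℝ) else 0) =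
      ∑ AB : (Fin N → X) × (Fin N → X), (∏ v, μ (AB.1 v)) * (∏ v, μ (AB.2 v)) *
        (if D < (univ.filter fun v => E (AB.1 v) (AB.2 v)).card then (1 : ℝ) else 0) :=
    (Fintype.sum_prod_type (fun AB : (Fin N → X) × (Fin N → X) =>
      (∏ v, μ (AB.1 v)) * (∏ v, μ (AB.2 v)) *
        (if D < (univ.filter fun v => E (AB.1 v) (AB.2 v)).card then (1 : ℝ) else 0))).symm
  rw [h5]
  refine (Fintype.sum_equiv (Equiv.arrowProdEquivProdArrow (Fin N) (fun _ => X) (fun _ => X))
    _ _ ?_).symm
  intro A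
  show (∏ v, μ (A v).1 * μ (A v).2) * _ = (∏ v, μ (A v).1) * (∏ v, μ (A v).2) * _
  rw [prod_mul_distrib]
  rfl

/-- number of agreements of two permutations -/
def agr {n : ℕ} (a b : Equiv.Perm (Fin n)) : ℕ := (univ.filter fun h => a h = b h).card

/-- (WRD) as a sum -/
theorem wrd {n : ℕ} (μ : Equiv.Perm (Fin n) → ℝ) (h0 : ∀ p, 0 ≤ μ p) (h1 : ∑ p, μ p ≤ 1)
    (N D f : ℕ) :
    ∑ A : Fin N → Equiv.Perm (Fin n), ∑ B : Fin N → Equiv.Perm (Fin n),
        (∏ v, μ (A v)) * (∏ v, μ (B v)) *
        (if D < (univ.filter fun v => f < agr (A v) (B v)).card then 1 else 0) ≤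
      2 ^ N * (∑ a, ∑ b, μ a * μ b * (if f < agr a b then 1 else 0)) ^ (D + 1) :=
  wrd_pair μ h0 h1 (fun a b => f < agr a b) N D

/-- (WRD) as a weight of a set of pairs -/
theorem wrd_filter {n : ℕ} (μ : Equiv.Perm (Fin n) → ℝ) (h0 : ∀ p, 0 ≤ μ p)
    (h1 : ∑ p, μ p ≤ 1) (N D f : ℕ) :
    ∑ AB : (Fin N → Equiv.Perm (Fin n)) × (Fin N → Equiv.Perm (Fin n)) with
        D < (univ.filter fun v => f < agr (AB.1 v) (AB.2 v)).card,
        (∏ v, μ (AB.1 v)) * (∏ v, μ (AB.2 v)) ≤
      2 ^ N * (∑ ab : Equiv.Perm (Fin n) × Equiv.Perm (Fin n) with f < agr ab.1 ab.2,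
        μ ab.1 * μ ab.2) ^ (D + 1) := by
  have h2 := wrd μ h0 h1 N D f
  have h3 : ∑ ab : Equiv.Perm (Fin n) × Equiv.Perm (Fin n) with f < agr ab.1 ab.2,
      μ ab.1 * μ ab.2 = ∑ a, ∑ b, μ a * μ b * (if f < agr a b then 1 else 0) := by
    rw [sum_filter, Fintype.sum_prod_type]
    refine sum_congr rfl fun a _ => sum_congr rfl fun b _ => ?_
    split_ifs <;> simp
  rw [h3, sum_filter, Fintype.sum_prod_type]
  refine le_trans (le_of_eq ?_) h2
  refine sum_congr rfl fun A _ => sum_congr rfl fun B _ => ?_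
  by_cases h : D < (univ.filter fun v => f < agr (A v) (B v)).card
  · rw [if_pos h, if_pos h, mul_one]
  · rw [if_neg h, if_neg h, mul_zero]

/-- the extension of a sequence by `1` -/
def ext1 {n N : ℕ} (A : Fin N → Equiv.Perm (Fin n)) (v : ℕ) : Equiv.Perm (Fin n) :=
  if h : v < N then A ⟨v, h⟩ else 1

/-- the rounds with many agreements, as a subset of `range N` -/
theorem card_ext1 {n N : ℕ} (A B : Fin N → Equiv.Perm (Fin n)) (f : ℕ) :
    ((range N).filter fun v => f < agr (ext1 A v) (ext1 B v)).card =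
      (univ.filter fun v => f < agr (A v) (B v)).card := by
  refine (card_bij (fun (v : Fin N) _ => (v : ℕ)) ?_ ?_ ?_).symm
  · intro v hv
    rw [mem_filter] at hv ⊢
    refine ⟨mem_range.2 v.2, ?_⟩
    simp only [ext1, dif_pos v.2]
    exact hv.2
  · intro v _ v' _ h
    exact Fin.ext h
  · intro v hv
    rw [mem_filter, mem_range] at hv
    refine ⟨⟨v, hv.1⟩, ?_, rfl⟩
    rw [mem_filter]
    refine ⟨mem_univ _, ?_⟩
    have := hv.2
    simpa only [ext1, dif_pos hv.1] using this

/-- the bad rounds of (SPB): lazy next round, last round, or many agreements in the next round -/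
theorem bad_rounds {n N : ℕ} {L : Type} (g : ℕ → Option L) (a b : ℕ → Equiv.Perm (Fin n)) (f : ℕ)
    [∀ v, Decidable (g v = none)] :
    ((range N).filter fun v => ¬ (v + 1 < N ∧ g (v + 1) ≠ none ∧
      agr (a (v + 1)) (b (v + 1)) ≤ f)).card ≤
      1 + ((range N).filter fun v => g v = none).card +
        ((range N).filter fun v => f < agr (a v) (b v)).card := by
  classical
  have h1 : ((range N).filter fun v => ¬ (v + 1 < N ∧ g (v + 1) ≠ none ∧
      agr (a (v + 1)) (b (v + 1)) ≤ f)) ⊆
      ({N - 1} : Finset ℕ) ∪ (((range N).filter fun v => g v = none) ∪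
        ((range N).filter fun v => f < agr (a v) (b v))).image (fun v => v - 1) := by
    intro v hv
    rw [mem_filter, mem_range] at hv
    rw [mem_union, mem_singleton, mem_image]
    by_cases h2 : v + 1 < N
    · right
      refine ⟨v + 1, ?_, by omega⟩
      rw [mem_union, mem_filter, mem_filter, mem_range]
      by_cases h3 : g (v + 1) = none
      · exact Or.inl ⟨h2, h3⟩
      · right
        refine ⟨h2, ?_⟩
        by_contra h4
        exact hv.2 ⟨h2, h3, not_lt.1 h4⟩
    · left
      omega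
  refine (card_le_card h1).trans ?_
  refine (card_union_le _ _).trans ?_
  rw [card_singleton]
  have h5 := (card_image_le (s := ((range N).filter fun v => g v = none) ∪
        ((range N).filter fun v => f < agr (a v) (b v))) (f := fun v => v - 1)).trans
          (card_union_le _ _)
  omega

end Pool.Agent.Helper5.FS
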