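import Pool.Agent.Helper1.TP.Goals
import Pool.Agent.Helper5.FS.Wrd

/-!
# Project FS (MP_75608d_al), final step: `S_WRD`, and its form for the bad rounds `badR`
-/

set_option autoImplicit false

namespace Pool.Agent.Helper5.FS

open Finset
open Pool.Agent.Helper4.FS (World Lt)
open Pool.Agent.Helper1.TP (S_WRD extW extG badR nl)

theorem agr_eq {n : ℕ} (a b : Equiv.Perm (Fin n)) : Pool.Agent.Helper1.TP.agr a b = agr a b := rfl

theorem s_wrd : S_WRD := by
  intro n N f D μ p1 h0 h1 hp
  have h2 := wrd μ h0 h1.le N D f
  have h3 : ∀ (A B : Fin N → Equiv.Perm (Fin n)),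
      (if D < (univ.filter fun v => f < Pool.Agent.Helper1.TP.agr (A v) (B v)).card then
        (∏ j, μ (A j)) * (∏ j, μ (B j)) else 0) =
      (∏ v, μ (A v)) * (∏ v, μ (B v)) *
        (if D < (univ.filter fun v => f < agr (A v) (B v)).card then (1 : ℝ) else 0) := by
    intro A B
    have : (univ.filter fun v => f < Pool.Agent.Helper1.TP.agr (A v) (B v)).card =
      (univ.filter fun v => f < agr (A v) (B v)).card := rfl
    rw [this]
    by_cases h : D < (univ.filter fun v => f < agr (A v) (B v)).card
    · rw [if_pos h, if_pos h, mul_one]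
    · rw [if_neg h, if_neg h, mul_zero]
  rw [sum_congr rfl fun A _ => sum_congr rfl fun B _ => h3 A B]
  refine h2.trans ?_
  refine mul_le_mul_of_nonneg_left ?_ (by positivity)
  refine pow_le_pow_left₀ ?_ ?_ _
  · refine sum_nonneg fun a _ => sum_nonneg fun b _ => mul_nonneg (mul_nonneg (h0 _) (h0 _)) ?_
    split_ifs <;> norm_num
  · refine le_trans (le_of_eq ?_) hp
    refine sum_congr rfl fun a _ => sum_congr rfl fun b _ => ?_
    by_cases h : f < agr a b
    · have h' : f < Pool.Agent.Helper1.TP.agr a b := h
      rw [if_pos h, if_pos h', mul_one]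
    · have h' : ¬ f < Pool.Agent.Helper1.TP.agr a b := h
      rw [if_neg h, if_neg h', mul_zero]

/-- the bad rounds of (SPB): at most `(N - nl) + (D + 1)` if at most `D` rounds have words agreeing
at more than `f` places -/
theorem badR_card_le {q n : ℕ} (a b : ℕ → Equiv.Perm (Fin n)) (g : ℕ → Option (Lt q))
    (N f D : ℕ) (hD : ((range N).filter fun v => f < agr (a v) (b v)).card ≤ D) :
    (badR a b g N f).card ≤ (N - nl g N) + (D + 1) := by
  classical
  have h1 : badR a b g N f ⊆ ((range N).filter fun v => ¬ (v + 1 < N ∧ g (v + 1) ≠ none ∧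
      agr (a (v + 1)) (b (v + 1)) ≤ f)) := by
    intro v hv
    unfold badR at hv
    rw [mem_filter] at hv ⊢
    exact ⟨hv.1, hv.2.2⟩
  have h2 := (card_le_card h1).trans (bad_rounds g a b f)
  have h3 : ((range N).filter fun v => g v = none).card + nl g N = N := by
    unfold nl
    have := card_filter_add_card_filter_not (s := range N) (fun v => g v = none)
    rw [card_range] at this
    convert this using 2
  have h4 : ((range N).filter fun v => g v = none).card = N - nl g N := by omega
  rw [h4] at h2
  omega

/-- the same for sequences of length `N` -/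
theorem badR_card_le' {q n N : ℕ} (A B : Fin N → Equiv.Perm (Fin n)) (g : ℕ → Option (Lt q))
    (f D : ℕ) (hD : ¬ D < (univ.filter fun v => f < Pool.Agent.Helper1.TP.agr (A v) (B v)).card) :
    (badR (extW A) (extW B) g N f).card ≤ (N - nl g N) + (D + 1) := by
  refine badR_card_le _ _ g N f D ?_
  have h1 := card_ext1 A B f
  have h2 : ((range N).filter fun v => f < agr (extW A v) (extW B v)).card =
      ((range N).filter fun v => f < agr (ext1 A v) (ext1 B v)).card := rfl
  rw [h2, h1]
  exact not_lt.1 hD

end Pool.Agent.Helper5.FS
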