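import Pool.Agent.Helper38.FS.Goals2

/-!
# Project FS (MP_75608d_al), middle levels: `S_COL` from `S_MIX1` and `S_MIX2`
-/

set_option autoImplicit false

namespace Pool.Agent.Helper5.FS

open Finset Equiv
open Pool.Agent.Helper60.FS (act run pe ZZ FIX act_inj run_inj run_append)
open Pool.Agent.Helper3.AK (Alt TupleGap)
open Pool.Agent.Helper38.FS
open Classical

/-- counting words by their first part -/
theorem card_append {α : Type} [Fintype α] (s m : ℕ) (P : (Fin s → α) → (Fin m → α) → Prop)
    [∀ u g, Decidable (P u g)] :
    (univ.filter fun v : Fin (s + m) → α =>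
      P ((Fin.appendEquiv s m).symm v).1 ((Fin.appendEquiv s m).symm v).2).card =
      ∑ u : Fin s → α, (univ.filter fun g : Fin m → α => P u g).card := by
  have h1 : (univ.filter fun v : Fin (s + m) → α =>
      P ((Fin.appendEquiv s m).symm v).1 ((Fin.appendEquiv s m).symm v).2).card =
      (univ.filter fun x : (Fin s → α) × (Fin m → α) => P x.1 x.2).card := by
    refine card_bij (fun v _ => (Fin.appendEquiv s m).symm v) ?_ ?_ ?_
    · intro v hv
      rw [mem_filter] at hv ⊢
      exact ⟨mem_univ _, hv.2⟩
    · intro v _ v' _ h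
      exact (Fin.appendEquiv s m).symm.injective h
    · intro x hx
      rw [mem_filter] at hx
      refine ⟨Fin.appendEquiv s m x, ?_, ?_⟩
      · rw [mem_filter]
        refine ⟨mem_univ _, ?_⟩
        rw [Equiv.symm_apply_apply]
        exact hx.2
      · rw [Equiv.symm_apply_apply]
  rw [h1, card_filter, Fintype.sum_prod_type]
  refine sum_congr rfl fun u _ => ?_
  rw [card_filter]

theorem ofFn_appendEquiv {α : Type} (s m : ℕ) (v : Fin (s + m) → α) :
    List.ofFn v = List.ofFn ((Fin.appendEquiv s m).symm v).1 ++
      List.ofFn ((Fin.appendEquiv s m).symm v).2 := by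
  conv_lhs => rw [← (Fin.appendEquiv s m).apply_symm_apply v]
  exact List.ofFn_fin_append _ _

theorem take_ofFn {α : Type} (s m : ℕ) (v : Fin (s + m) → α) :
    (List.ofFn v).take s = List.ofFn ((Fin.appendEquiv s m).symm v).1 := by
  rw [ofFn_appendEquiv, List.take_append_of_le_length (by simp)]
  rw [List.take_of_length_le (by simp)]

/-- words of length `s + m + r`: the last part is free -/
theorem col_red {n K : ℕ} (z : Fin K → Perm (Fin n)) (s m r : ℕ) (a b : Fin n) :
    (univ.filter fun v : Fin (s + m + r) → Lt K => run z ((List.ofFn v).take (s + m)) a =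
      run z ((List.ofFn v).take s) b).card =
    (∑ u : Fin s → Lt K, (univ.filter fun g : Fin m → Lt K =>
      run z (List.ofFn g) (run z (List.ofFn u) a) = run z (List.ofFn u) b).card) *
        (2 * K) ^ r := by
  have h1 : (univ.filter fun v : Fin (s + m + r) → Lt K => run z ((List.ofFn v).take (s + m)) a =
      run z ((List.ofFn v).take s) b) =
      univ.filter fun v : Fin (s + m + r) → Lt K =>
        (fun (x : Fin (s + m) → Lt K) (_ : Fin r → Lt K) => run z (List.ofFn x) a =
          run z ((List.ofFn x).take s) b) ((Fin.appendEquiv (s + m) r).symm v).1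
            ((Fin.appendEquiv (s + m) r).symm v).2 := by
    ext v
    simp only [mem_filter, mem_univ, true_and]
    have h2 : (List.ofFn v).take s =
        (List.ofFn ((Fin.appendEquiv (s + m) r).symm v).1).take s := by
      rw [ofFn_appendEquiv, List.take_append_of_le_length (by simp)]
    rw [take_ofFn (s + m) r v, h2]
  rw [h1, card_append (s + m) r (fun (x : Fin (s + m) → Lt K) (_ : Fin r → Lt K) =>
    run z (List.ofFn x) a = run z ((List.ofFn x).take s) b)]
  have h3 : ∀ x : Fin (s + m) → Lt K,
      (univ.filter fun _ : Fin r → Lt K => run z (List.ofFn x) a =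
        run z ((List.ofFn x).take s) b).card =
      if run z (List.ofFn x) a = run z ((List.ofFn x).take s) b then (2 * K) ^ r else 0 := by
    intro x
    by_cases hx : run z (List.ofFn x) a = run z ((List.ofFn x).take s) b
    · rw [if_pos hx, filter_true_of_mem (fun _ _ => hx), card_univ, Fintype.card_fun,
        Fintype.card_prod, Fintype.card_fin, Fintype.card_fin, Fintype.card_bool, mul_comm K 2]
    · rw [if_neg hx, filter_false_of_mem (fun _ _ => hx), card_empty]
  rw [sum_congr rfl fun x _ => h3 x, ← sum_filter, sum_const, smul_eq_mul]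
  congr 1
  have h4 : (univ.filter fun x : Fin (s + m) → Lt K => run z (List.ofFn x) a =
      run z ((List.ofFn x).take s) b) =
      univ.filter fun x : Fin (s + m) → Lt K =>
        (fun (u : Fin s → Lt K) (g : Fin m → Lt K) => run z (List.ofFn g) (run z (List.ofFn u) a) =
          run z (List.ofFn u) b) ((Fin.appendEquiv s m).symm x).1
            ((Fin.appendEquiv s m).symm x).2 := by
    ext x
    simp only [mem_filter, mem_univ, true_and]
    rw [take_ofFn s m x, ← run_append, ← ofFn_appendEquiv]
  rw [h4, card_append s m (fun (u : Fin s → Lt K) (g : Fin m → Lt K) =>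
    run z (List.ofFn g) (run z (List.ofFn u) a) = run z (List.ofFn u) b)]

theorem pow_small {n h m : ℕ} (hn : 2 ≤ n) (hh : (n : ℝ) ^ 2 * (11 / 20) ^ (2 * h) ≤ 1)
    (hm : h ≤ m) : ((11 : ℝ) / 20) ^ (2 * m) ≤ 1 / (n : ℝ) ^ 2 := by
  have hn0 : (0 : ℝ) < n := by
    have : (2 : ℝ) ≤ n := by exact_mod_cast hn
    linarith
  have h1 : ((11 : ℝ) / 20) ^ (2 * m) ≤ (11 / 20) ^ (2 * h) :=
    pow_le_pow_of_le_one (by norm_num) (by norm_num) (by omega)
  refine h1.trans ?_
  rw [le_div_iff₀ (by positivity)]
  linarith

theorem s_col (h1 : S_MIX1) (h2 : S_MIX2) : S_COL := by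
  intro n K l h s s' hK hn z hg1 hg2 hh hss hsl hhs a b hab
  obtain ⟨m, rfl⟩ : ∃ m, s' = s + m := ⟨s' - s, by omega⟩
  obtain ⟨r, rfl⟩ : ∃ r, l = s + m + r := ⟨l - (s + m), by omega⟩
  have hm0 : 0 < m := by omega
  rw [col_red]
  push_cast
  have hn2 : (2 : ℝ) ≤ n := by exact_mod_cast hn
  have hn0 : (0 : ℝ) < n := by linarith
  have hK1 : (1 : ℝ) ≤ K := by exact_mod_cast hK
  have hcs : ∀ q : ℕ, (Fintype.card (Fin q → Lt K) : ℝ) = (2 * K) ^ q := by
    intro q
    rw [Fintype.card_fun, Fintype.card_prod, Fintype.card_fin, Fintype.card_fin,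
      Fintype.card_bool]
    push_cast
    rw [mul_comm (K : ℝ) 2]
  have hmain : (∑ u : Fin s → Lt K, ((univ.filter fun g : Fin m → Lt K =>
      run (up z) (List.ofFn g) (run (up z) (List.ofFn u) a) =
        run (up z) (List.ofFn u) b).card : ℝ)) ≤
      (2 * K) ^ (s + m) * (5 * (2 * ((s : ℝ) + m + r) + 1) / n) := by
    rcases le_or_gt h m with hm | hm
    · -- long middle word
      have hB := pow_small hn hh hm
      have hB2 : ((11 : ℝ) / 20) ^ (2 * m) ≤ 1 / n := by
        refine hB.trans ?_
        refine one_div_le_one_div_of_le hn0 ?_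
        nlinarith
      have h3 : ∀ u : Fin s → Lt K, ((univ.filter fun g : Fin m → Lt K =>
          run (up z) (List.ofFn g) (run (up z) (List.ofFn u) a) =
            run (up z) (List.ofFn u) b).card : ℝ) ≤
          (2 * K) ^ m * (5 * (2 * ((s : ℝ) + m + r) + 1) / n) := by
        intro u
        refine (h1 n K m hK z hg1 _ _).trans ?_
        refine mul_le_mul_of_nonneg_left ?_ (by positivity)
        have h4 : (2 * (m : ℝ) + 1) * (1 / n + (11 / 20) ^ (2 * m)) ≤
            (2 * (m : ℝ) + 1) * (2 / n) := by
          refine mul_le_mul_of_nonneg_left ?_ (by positivity)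
          have : (2 : ℝ) / n = 1 / n + 1 / n := by ring
          linarith
        refine h4.trans ?_
        rw [← mul_div_assoc]
        refine div_le_div_of_nonneg_right ?_ hn0.le
        have hs0 : (0 : ℝ) ≤ s := Nat.cast_nonneg _
        have hr0 : (0 : ℝ) ≤ r := Nat.cast_nonneg _
        have hm1 : (0 : ℝ) ≤ m := Nat.cast_nonneg _
        linarith
      refine (sum_le_sum fun u _ => h3 u).trans ?_
      rw [sum_const, card_univ, nsmul_eq_mul, hcs, pow_add]
      apply le_of_eq
      ring
    · -- long first word
      have hs : h ≤ s := by omega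
      have hB := pow_small hn hh hs
      have hsw : (∑ u : Fin s → Lt K, ((univ.filter fun g : Fin m → Lt K =>
          run (up z) (List.ofFn g) (run (up z) (List.ofFn u) a) =
            run (up z) (List.ofFn u) b).card : ℝ)) =
          ∑ g : Fin m → Lt K, ∑ c : Fin n, ((univ.filter fun u : Fin s → Lt K =>
            run (up z) (List.ofFn u) a = c ∧
              run (up z) (List.ofFn u) b = run (up z) (List.ofFn g) c).card : ℝ) := by
        have e1 : ∀ u : Fin s → Lt K, ((univ.filter fun g : Fin m → Lt K =>
            run (up z) (List.ofFn g) (run (up z) (List.ofFn u) a) =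
              run (up z) (List.ofFn u) b).card : ℝ) =
            ∑ g : Fin m → Lt K, if run (up z) (List.ofFn g) (run (up z) (List.ofFn u) a) =
              run (up z) (List.ofFn u) b then (1 : ℝ) else 0 := by
          intro u
          rw [card_filter]
          push_cast
          rfl
        rw [sum_congr rfl fun u _ => e1 u, sum_comm]
        refine sum_congr rfl fun g _ => ?_
        have e2 : ∀ c : Fin n, ((univ.filter fun u : Fin s → Lt K =>
            run (up z) (List.ofFn u) a = c ∧
              run (up z) (List.ofFn u) b = run (up z) (List.ofFn g) c).card : ℝ) =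
            ∑ u : Fin s → Lt K, if (run (up z) (List.ofFn u) a = c ∧
              run (up z) (List.ofFn u) b = run (up z) (List.ofFn g) c) then (1 : ℝ) else 0 := by
          intro c
          rw [card_filter]
          push_cast
          rfl
        rw [sum_congr rfl fun c _ => e2 c, sum_comm]
        refine sum_congr rfl fun u _ => ?_
        rw [sum_eq_single (run (up z) (List.ofFn u) a)]
        · simp only [true_and]
          by_cases hc : run (up z) (List.ofFn g) (run (up z) (List.ofFn u) a) =
              run (up z) (List.ofFn u) b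
          · rw [if_pos hc, if_pos hc.symm]
          · rw [if_neg hc, if_neg (fun h => hc h.symm)]
        · intro c _ hc
          rw [if_neg (fun h => hc h.1.symm)]
        · intro h
          exact absurd (mem_univ _) h
      rw [hsw]
      have h3 : ∀ (g : Fin m → Lt K) (c : Fin n), ((univ.filter fun u : Fin s → Lt K =>
            run (up z) (List.ofFn u) a = c ∧
              run (up z) (List.ofFn u) b = run (up z) (List.ofFn g) c).card : ℝ) ≤
          (2 * K) ^ s * ((2 * s + 1) * (3 / n ^ 2)) := by
        intro g c
        by_cases hc : c = run (up z) (List.ofFn g) c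
        · rw [← hc]
          have : (univ.filter fun u : Fin s → Lt K => run (up z) (List.ofFn u) a = c ∧
              run (up z) (List.ofFn u) b = c) = ∅ := by
            refine filter_false_of_mem fun u _ => ?_
            rintro ⟨e1, e2⟩
            exact hab (run_inj (up z) _ (e1.trans e2.symm))
          rw [this, card_empty]
          push_cast
          positivity
        · refine (h2 n K s hK z hg2 a b c _ hab hc).trans ?_
          refine mul_le_mul_of_nonneg_left ?_ (by positivity)
          refine mul_le_mul_of_nonneg_left ?_ (by positivity)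
          have e1 : (1 : ℝ) / (n * (n - 1)) ≤ 2 / n ^ 2 := by
            rw [div_le_div_iff₀ (by nlinarith) (by positivity)]
            nlinarith
          have e2 : (3 : ℝ) / n ^ 2 = 2 / n ^ 2 + 1 / n ^ 2 := by ring
          linarith
      refine (sum_le_sum fun g _ => sum_le_sum fun c _ => h3 g c).trans ?_
      rw [sum_const, sum_const, card_univ, card_univ, nsmul_eq_mul, nsmul_eq_mul, hcs,
        Fintype.card_fin, pow_add]
      have e3 : ((2 * K : ℝ)) ^ m * ((n : ℝ) * ((2 * K) ^ s * ((2 * s + 1) * (3 / n ^ 2)))) =
          (2 * K) ^ s * (2 * K) ^ m * (3 * (2 * s + 1) / n) := by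
        field_simp
      rw [e3]
      refine mul_le_mul_of_nonneg_left ?_ (by positivity)
      refine div_le_div_of_nonneg_right ?_ hn0.le
      have hs0 : (0 : ℝ) ≤ s := Nat.cast_nonneg _
      have hr0 : (0 : ℝ) ≤ r := Nat.cast_nonneg _
      have hm1 : (0 : ℝ) ≤ m := Nat.cast_nonneg _
      linarith
  calc (∑ u : Fin s → Lt K, ((univ.filter fun g : Fin m → Lt K =>
      run (up z) (List.ofFn g) (run (up z) (List.ofFn u) a) =
        run (up z) (List.ofFn u) b).card : ℝ)) * (2 * K) ^ r
      ≤ ((2 * K) ^ (s + m) * (5 * (2 * ((s : ℝ) + m + r) + 1) / n)) * (2 * K) ^ r :=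
        mul_le_mul_of_nonneg_right hmain (by positivity)
    _ = _ := by
        rw [pow_add (2 * (K : ℝ)) (s + m) r]
        ring

end Pool.Agent.Helper5.FS
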